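import Pool.Agent.Lib.MP_666db5_gt.Defs
import Pool.Agent.Lib.MP_666db5_gt.AD.Leaves

set_option autoImplicit false

open scoped Manifold ContDiff
open Pool.Agent.Lib.MP_666db5_gt

namespace Pool.Agent.Results.MP_666db5_gt.AllDimensions

/-- For all `n ≥ 1` and `q ≥ 2` there is a closed connected smooth manifold of dimension `2n + q`
with a `q`-contact structure such that no isotropy group of the contact action contains two
linearly independent vectors, and no orbit of the contact action is compact. -/
theorem result (n q : ℕ) (hn : 1 ≤ n) (hq : 2 ≤ q) :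
    ∃ (E : Type) (_ : NormedAddCommGroup E) (_ : NormedSpace ℝ E),
      FiniteDimensional ℝ E ∧ Module.finrank ℝ E = 2 * n + q ∧
      ∃ (M : Type) (_ : TopologicalSpace M) (_ : ChartedSpace E M)
        (_ : IsManifold 𝓘(ℝ, E) ∞ M),
        T2Space M ∧ CompactSpace M ∧ ConnectedSpace M ∧
        ∃ (c : QContact E q M) (R : Fin q → (x : M) → TangentSpace 𝓘(ℝ, E) x)
          (F : (Fin q → ℝ) → M → M),
          c.IsReebFrame R ∧ IsActionOfFlows R F ∧
          ∀ x : M, (∀ s t, F s x = x → F t x = x → ¬ LinearIndependent ℝ ![s, t]) ∧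
            ¬ IsCompact (leaf F x) := by
  obtain ⟨m, rfl⟩ : ∃ m, n = m + 1 := ⟨n - 1, by omega⟩
  obtain ⟨k, rfl⟩ : ∃ k, q = k + 1 + 1 := ⟨q - 2, by omega⟩
  refine ⟨AD.E m k, inferInstance, inferInstance, inferInstance, ?_,
    AD.Mf m k, inferInstance, inferInstance, inferInstance, inferInstance, inferInstance,
    inferInstance, AD.structureQ m k, AD.reebField, AD.act, AD.isReebFrame, AD.isActionOfFlows,
    fun x => ⟨AD.periods_dependent x, AD.not_isCompact_leaf x⟩⟩
  simp only [Module.finrank_prod, Module.finrank_fintype_fun_eq_card, Fintype.card_sum,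
    Fintype.card_fin, finrank_euclideanSpace_fin]
  ring

end Pool.Agent.Results.MP_666db5_gt.AllDimensions
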