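import Pool.Agent.Lib.MP_666db5_gt.Defs
import Pool.Agent.Lib.MP_666db5_gt.Fat.NoFactor

set_option autoImplicit false

open scoped Manifold ContDiff
open Pool.Agent.Lib.MP_666db5_gt

namespace Pool.Agent.Results.MP_666db5_gt.Fat

/-- There is a closed connected smooth manifold of dimension `2n + q`, `n = q = 2`, with a
`q`-contact structure such that the differential of every non-trivial combination of the two forms
has the Reeb bundle as its kernel, the contact action does not fibre equivariantly over a circle,
and no orbit of the contact action (no leaf of the contact foliation) is compact. -/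
theorem result :
    ∃ (E : Type) (_ : NormedAddCommGroup E) (_ : NormedSpace ℝ E),
      FiniteDimensional ℝ E ∧ Module.finrank ℝ E = 2 * 2 + 2 ∧
      ∃ (M : Type) (_ : TopologicalSpace M) (_ : ChartedSpace E M)
        (_ : IsManifold 𝓘(ℝ, E) ∞ M),
        T2Space M ∧ CompactSpace M ∧ ConnectedSpace M ∧
        ∃ (c : QContact E 2 M) (R : Fin 2 → (x : M) → TangentSpace 𝓘(ℝ, E) x)
          (F : (Fin 2 → ℝ) → M → M),
          c.IsReebFrame R ∧ IsActionOfFlows R F ∧
          (∀ a : Fin 2 → ℝ, a ≠ 0 → ∀ (x : M) (u : TangentSpace 𝓘(ℝ, E) x),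
            u ∈ c.reeb x ↔ ∀ v, extD (fun y => ∑ i, a i • c.lam i y) x u v = 0) ∧
          (∀ (f : M → AddCircle (1 : ℝ)) (l : (Fin 2 → ℝ) →ₗ[ℝ] ℝ), Continuous f →
            (∀ s x, f (F s x) = f x + (l s : ℝ)) → l = 0) ∧
          ∀ x : M, ¬ IsCompact (leaf F x) :=
  ⟨Fat.E6, inferInstance, inferInstance, inferInstance, by simp,
    Fat.N, inferInstance, inferInstance, inferInstance, inferInstance, inferInstance, inferInstance,
    Fat.structure6, Fat.reebField, Fat.act, Fat.isReebFrame, Fat.isActionOfFlows, Fat.fat,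
    Fat.no_circle_factor, Fat.not_isCompact_leaf⟩

end Pool.Agent.Results.MP_666db5_gt.Fat
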